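import Pool.Agent.H46.Yao.Orb

set_option autoImplicit false
set_option linter.unusedSectionVars false

namespace Pool.Agent.H46.Yao

open PowerSeries Filter Finset
open scoped Polynomial

variable {k : Type} [Field k] [Fintype k] {p e d : ℕ} [Fact p.Prime] [CharP k p] {θ : k}

instance charPS : CharP k⟦X⟧ p := charP_of_injective_algebraMap (algebraMap k k⟦X⟧).injective p

/-- `u`-adic convergence -/
def Lim (P : ℕ → k⟦X⟧) (y : k⟦X⟧) : Prop := ∀ N, ∀ᶠ m in atTop, X ^ N ∣ P m - y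

lemma Lim.const (y : k⟦X⟧) : Lim (fun _ => y) y := fun _ => .of_forall (by simp)

lemma Lim.mul {P Q : ℕ → k⟦X⟧} {y z : k⟦X⟧} (h : Lim P y) (g : Lim Q z) :
    Lim (fun m => P m * Q m) (y * z) := fun N => ((h N).and (g N)).mono fun m a => by
  convert (a.1.mul_right (Q m)).add (a.2.mul_left y) using 1; ring

lemma Lim.pow {P : ℕ → k⟦X⟧} {y : k⟦X⟧} (h : Lim P y) (n : ℕ) : Lim (fun m => P m ^ n) (y ^ n) :=
  fun N => (h N).mono fun _ a => a.trans (sub_dvd_pow_sub_pow _ _ _)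

lemma Lim.unique {P : ℕ → k⟦X⟧} {y z : k⟦X⟧} (h : Lim P y) (g : Lim P z) : y = z :=
  eq_of_dvd fun N => by
    obtain ⟨m, a, b⟩ := ((h N).and (g N)).exists
    simpa using b.sub a

lemma Lim.comp {P : ℕ → k⟦X⟧} {y : k⟦X⟧} (h : Lim P y) {f : ℕ → ℕ} (hf : Tendsto f atTop atTop) :
    Lim (fun m => P (f m)) y := fun N => hf.eventually (h N)

lemma Lim.prod {ι : Type} {s : Finset ι} {P : ι → ℕ → k⟦X⟧} {y : ι → k⟦X⟧}
    (h : ∀ i ∈ s, Lim (P i) (y i)) : Lim (fun m => ∏ i ∈ s, P i m) (∏ i ∈ s, y i) := by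
  classical
  induction s using Finset.induction_on with
  | empty => simpa using Lim.const 1
  | insert a s ha ih =>
    rw [forall_mem_insert] at h
    simpa [prod_insert ha] using h.1.mul (ih h.2)

lemma Lim.cc {P : ℕ → k⟦X⟧} {y : k⟦X⟧} (h : Lim P y) (g : ∀ m, constantCoeff (P m) = 1) :
    constantCoeff y = 1 := by
  obtain ⟨m, a⟩ := (h 1).exists
  rw [pow_one, X_dvd_iff, map_sub, g, sub_eq_zero] at a
  exact a.symm

lemma ex_lim {v : ℕ → k⟦X⟧} (h : ∀ i, X ^ i ∣ v i - 1) : ∃ y, Lim (fun m => ∏ i ∈ range m, v i) y := by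
  have key : ∀ N m, N ≤ m → X ^ N ∣ ∏ i ∈ range m, v i - ∏ i ∈ range N, v i := fun N m l => by
    induction l with
    | refl => simp
    | @step m l ih =>
      convert ih.add (((pow_dvd_pow X l).trans (h m)).mul_left (∏ i ∈ range m, v i)) using 1
      rw [prod_range_succ]; ring
  refine ⟨mk fun n => coeff n (∏ i ∈ range (n + 1), v i), fun N => (eventually_ge_atTop N).mono
    fun m l => X_pow_dvd_iff.mpr fun n g => ?_⟩
  simpa using X_pow_dvd_iff.mp (key (n + 1) m (by omega)) n n.lt_succ_self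

lemma dvd_der {N : ℕ} {f : k⟦X⟧} (h : X ^ N ∣ f) : X ^ N ∣ X * d⁄dX k f := by
  refine X_pow_dvd_iff.mpr fun n g => ?_
  cases n with
  | zero => simp
  | succ n => rw [coeff_succ_X_mul, coeff_derivative, X_pow_dvd_iff.mp h _ g, zero_mul]

variable (he : e ≠ 0) (hd : d ≠ 0) (hk : Fintype.card k = (p ^ e) ^ d) {v : ℕ → k[X]}
  (hv : ∀ i, v (i + 1) * br p e θ (i + 1) = br p e θ (i + 1 + d) * v i ^ p ^ e)
  (v0 : (v 0).coeff 0 = 1)

include hk in
lemma th_per (a l : ℕ) : θ ^ (p ^ e) ^ (a + l * d) = θ ^ (p ^ e) ^ a := by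
  rw [add_comm, pow_add, pow_mul, mul_comm l, pow_mul (p ^ e), ← hk, FiniteField.pow_card_pow]

include he hk hv v0 in
lemma v_one (i : ℕ) : X ^ (i + 1) ∣ X * ((v i : k⟦X⟧) - 1) ∧ X ∣ (v i : k⟦X⟧) - 1 := by
  induction i with
  | zero => exact ⟨by simp, by simp [X_dvd_iff, v0]⟩
  | succ i ih =>
    have q := q2 (p := p) he
    suffices X ^ (i + 1 + 1) ∣ X * ((v (i + 1) : k⟦X⟧) - 1) from ⟨this, by
      rw [pow_succ', mul_dvd_mul_iff_left X_ne_zero] at this
      exact (dvd_pow_self _ i.succ_ne_zero).trans this⟩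
    have a := congrArg (fun P : k[X] => (P : k⟦X⟧)) (hv i)
    have b := H_mul (p := p) (θ := θ) he i.succ_ne_zero
    have c : X ^ (i + 1 + 1) ∣ (br p e θ (i + 1 + d) : k⟦X⟧) - (br p e θ (i + 1) : k⟦X⟧) := by
      rw [br_eq, br_eq, ← one_mul d, th_per hk]
      push_cast
      rw [add_sub_add_left_eq_sub]
      exact (pow_dvd_pow _ ((Nat.lt_pow_self q).trans_le' (by omega))).sub
        (pow_dvd_pow _ (Nat.lt_pow_self q))
    have g : X ^ (i + 1 + 1) ∣ X * ((v i : k⟦X⟧) ^ p ^ e - 1) := by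
      obtain ⟨r, hr⟩ := Nat.exists_eq_add_of_le' q
      rw [← one_pow (M := k⟦X⟧) (p ^ e), ← sub_pow_char_pow, hr, pow_succ _ (r + 1), pow_succ _ r, pow_succ,
        mul_left_comm, mul_assoc, mul_comm (_ - _)]
      exact (mul_dvd_mul ih.1 ih.2).mul_left _
    push_cast at a
    convert g.add (c.mul_left (H p e θ (i + 1) * (v i : k⟦X⟧) ^ p ^ e)) using 1
    linear_combination H p e θ (i + 1) * a - ((v (i + 1) : k⟦X⟧) - (v i : k⟦X⟧) ^ p ^ e) * b

include he hk hv v0 in
lemma v_lim (a : ℕ) (n : ℕ → ℕ) : ∃ y, Lim (fun m => ∏ i ∈ range m, (v (a + i) : k⟦X⟧) ^ n i) y :=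
  ex_lim fun i => by
    have := (v_one he hk hv v0 (a + i)).1
    rw [pow_succ', mul_dvd_mul_iff_left X_ne_zero] at this
    simpa using ((pow_dvd_pow X (Nat.le_add_left i a)).trans this).trans (sub_dvd_pow_sub_pow _ _ (n i))

include he hk hv v0 in
lemma v_cc (i : ℕ) : constantCoeff (v i : k⟦X⟧) = 1 := by
  simpa [X_dvd_iff, sub_eq_zero] using (v_one he hk hv v0 i).2

include he hv in
lemma v_der (i : ℕ) : X * d⁄dX k (v (i + 1) : k⟦X⟧) =
    (v (i + 1) : k⟦X⟧) * (H p e θ (i + 1) - H p e θ (i + 1 + d)) := by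
  have a := congrArg (fun P : k[X] => (P : k⟦X⟧)) (hv i)
  have b := H_mul (p := p) (θ := θ) he i.succ_ne_zero
  have c := H_mul (p := p) (θ := θ) he (j := i + 1 + d) (by omega)
  have z : ((p ^ e : ℕ) : k⟦X⟧) = 0 := by simp [he]
  have g : ∀ j, j ≠ 0 → d⁄dX k (br p e θ j : k⟦X⟧) = -1 := fun j h => by
    rw [br_eq, w]; push_cast; simp [he, h]
  push_cast at a
  have f := congrArg (d⁄dX k) a
  simp only [Derivation.leibniz, g _ i.succ_ne_zero, g (i + 1 + d) (by omega), derivative_pow, z,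
    smul_eq_mul] at f
  refine mul_left_cancel₀ (br_ne (p := p) (θ := θ) he i.succ_ne_zero) ?_
  linear_combination X * f - (v (i + 1) : k⟦X⟧) * b + H p e θ (i + 1 + d) * a + (v i : k⟦X⟧) ^ p ^ e * c

include he hd hk hv v0 in
theorem periodic {r : ℕ → ℕ} {J : ℕ} (hr : ∀ i ≥ J, r (i + d) = r i) {y : k⟦X⟧}
    (h : Lim (fun m => ∏ i ∈ range m, (v i : k⟦X⟧) ^ r i) y) : IsAlgebraic k[X] y := by
  have pr : ∀ l i, r (J + (l * d + i)) = r (J + i) := fun l i => by
    induction l with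
    | zero => simp
    | succ l ih => rw [← ih, ← hr (J + (l * d + i)) (by omega)]; congr 1; ring
  choose Y hY using fun a => v_lim he hk hv v0 a fun i => r (J + i)
  have h1 : y = ↑(∏ i ∈ range J, v i ^ r i) * Y J :=
    (h.comp (tendsto_add_atTop_nat J)).unique (by
      simpa [add_comm _ J, prod_range_add, ← alg_map] using (Lim.const _).mul (hY J))
  have h2 : Y J = ↑(∏ i ∈ range d, v (J + i) ^ r (J + i)) * Y (J + d) :=
    ((hY J).comp (tendsto_add_atTop_nat d)).unique (by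
      convert (Lim.const _).mul (hY (J + d)) using 2 with m
      rw [add_comm m, prod_range_add]
      simp only [← alg_map, map_prod, map_pow, add_assoc,
        show ∀ i, r (J + (d + i)) = r (J + i) by simpa using pr 1])
  have t : Tendsto (· * d) atTop atTop := tendsto_id.atTop_mul_const' (Nat.pos_of_ne_zero hd)
  have h3 : ∀ a, ↑(∏ i ∈ range d, br p e θ (a + i + 1) ^ r (J + i)) * Y (a + 1) =
      ↑(∏ i ∈ range d, w (θ ^ (p ^ e) ^ (a + i + 1) - θ) ^ r (J + i)) * Y a ^ p ^ e := fun a => by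
    refine ((Lim.const _).mul ((hY (a + 1)).comp t)).unique ?_
    have l : ∀ j, Lim (fun m => (br p e θ (j + m * d) : k⟦X⟧)) ↑(w (θ ^ (p ^ e) ^ j - θ)) :=
      fun j N => (eventually_ge_atTop N).mono fun m l => by
        simp only [br_eq, th_per hk]
        simpa using pow_dvd_pow _ ((Nat.lt_pow_self (q2 he)).le.trans' (by
          nlinarith [Nat.pos_of_ne_zero hd]))
    have := (Lim.prod (s := range d) fun i _ => (l (a + i + 1)).pow (r (J + i))).mul
      (((hY a).comp t).pow (p ^ e))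
    convert this using 2 with m
    · refine mul_left_cancel₀ (prod_ne_zero_iff.mpr fun i (_ : i ∈ range (m * d)) =>
        pow_ne_zero (r (J + i)) (br_ne (p := p) (θ := θ) he (a + i).succ_ne_zero)) ?_
      have a1 := prod_range_add (fun i => (br p e θ (a + i + 1) : k⟦X⟧) ^ r (J + i)) (m * d) d
      rw [add_comm, prod_range_add] at a1
      have a2 := prod_congr (s₁ := range (m * d)) rfl fun i _ => congrArg
        (fun P : k[X] => (P : k⟦X⟧) ^ r (J + i)) (hv (a + i))
      simp only [Polynomial.coe_mul, Polynomial.coe_pow, mul_pow, prod_mul_distrib,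
        pow_right_comm _ (p ^ e), prod_pow] at a2
      simp only [pr, show ∀ i, J + (d + i) = J + (1 * d + i) by simp,
        show ∀ i, a + (d + i) + 1 = a + i + 1 + d by omega,
        show ∀ i, a + (m * d + i) + 1 = a + i + 1 + m * d by omega] at a1
      simp only [← alg_map, map_prod, map_pow, show ∀ i, a + 1 + i = a + i + 1 by omega] at *
      rw [← mul_assoc, ← mul_assoc, ← a1, mul_assoc _ _ (_ ^ _), ← a2]
      ring
    · simp [← alg_map]
  have h4 : ∀ j, ∃ α β : k[X], α ≠ 0 ∧ α * Y (J + j) = β * Y J ^ (p ^ e) ^ j := fun j => by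
    induction j with
    | zero => exact ⟨1, 1, one_ne_zero, by simp⟩
    | succ j ih =>
      obtain ⟨α, β, a, b⟩ := ih
      refine ⟨α ^ p ^ e * ∏ i ∈ range d, br p e θ (J + j + i + 1) ^ r (J + i),
        (∏ i ∈ range d, w (θ ^ (p ^ e) ^ (J + j + i + 1) - θ) ^ r (J + i)) * β ^ p ^ e,
        mul_ne_zero (pow_ne_zero _ a) (prod_ne_zero_iff.mpr fun i _ => pow_ne_zero _ fun c =>
          br_ne (p := p) (θ := θ) he (J + j + i).succ_ne_zero (by rw [c]; rfl)), ?_⟩
      rw [Polynomial.coe_mul, mul_assoc, ← add_assoc, h3, Polynomial.coe_mul, Polynomial.coe_pow,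
        Polynomial.coe_pow, mul_left_comm, ← mul_pow, b, pow_succ, pow_mul, mul_pow, mul_assoc]
  obtain ⟨α, β, a, b⟩ := h4 d
  rw [h1]
  refine (alg_coe _).mul ⟨Polynomial.C (β * ∏ i ∈ range d, v (J + i) ^ r (J + i)) *
    Polynomial.X ^ (p ^ e) ^ d - Polynomial.C α * Polynomial.X, fun c => a ?_, ?_⟩
  · simpa [-map_mul, Polynomial.coeff_X_pow, (Nat.one_lt_pow hd (q2 he)).ne] using
      congrArg (Polynomial.coeff · 1) c
  simp only [map_sub, map_mul, map_pow, Polynomial.aeval_C, Polynomial.aeval_X, alg_map]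
  linear_combination -(α : k⟦X⟧) * h2 - ↑(∏ i ∈ range d, v (J + i) ^ r (J + i)) * b

include he hd hk hv v0 in
theorem modp {n : ℕ → ℕ} {y : k⟦X⟧} (h : Lim (fun m => ∏ i ∈ range m, (v i : k⟦X⟧) ^ n i) y)
    (hy : IsAlgebraic k[X] y) : ∃ J, ∀ i ≥ J, (n (i + d) : k) = n i := by
  classical
  by_contra! hc
  have q := q2 (p := p) he
  have cc : ∀ m, constantCoeff (∏ i ∈ range m, (v i : k⟦X⟧) ^ n i) = 1 := fun m => by
    simp [v_cc he hk hv v0]
  have y0 : constantCoeff y ≠ 0 := by rw [h.cc cc]; exact one_ne_zero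
  have v1 : ∀ i, (v i : k⟦X⟧) * (v i : k⟦X⟧)⁻¹ = 1 := fun i =>
    PowerSeries.mul_inv_cancel _ (by rw [v_cc he hk hv v0]; exact one_ne_zero)
  have y1 := PowerSeries.mul_inv_cancel _ y0
  let σ := fun i => X * d⁄dX k (v i : k⟦X⟧) * (v i : k⟦X⟧)⁻¹
  have ai : ∀ {f g : k⟦X⟧}, f * g = 1 → IsAlgebraic k[X] f → IsAlgebraic k[X] (X * d⁄dX k f * g) :=
    fun {f g} a b => ((by simpa using alg_coe Polynomial.X : IsAlgebraic k[X] X).mul (alg_der b)).mul
      (.of_mul (mem_nonZeroDivisors_of_ne_zero (left_ne_zero_of_mul_eq_one a)) b (a ▸ isAlgebraic_one))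
  have s1 : ∀ m, X * d⁄dX k (∏ i ∈ range m, (v i : k⟦X⟧) ^ n i) =
      (∏ i ∈ range m, (v i : k⟦X⟧) ^ n i) * ∑ i ∈ range m, (n i : k) • σ i := fun m => by
    induction m with
    | zero => simp
    | succ m ih =>
      rw [prod_range_succ, sum_range_succ, Derivation.leibniz, derivative_pow, Nat.cast_smul_eq_nsmul]
      cases n m with
      | zero => simpa using ih
      | succ r =>
        simp only [σ, smul_eq_mul, nsmul_eq_mul, Nat.add_sub_cancel, pow_succ]
        linear_combination (v m : k⟦X⟧) ^ r * v m * ih - (∏ i ∈ range m, (v i : k⟦X⟧) ^ n i) *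
          (r + 1 : ℕ) * (v m : k⟦X⟧) ^ r * X * d⁄dX k (v m : k⟦X⟧) * v1 m
  set J := d + 3
  set S := X * d⁄dX k y * y⁻¹ - ∑ i ∈ range J, (n i : k) • σ i
  have s2 : Lim (fun m => ∑ i ∈ range m, (n (J + i) : k) • σ (J + i)) S := fun N =>
    ((tendsto_add_atTop_nat J).eventually (h N)).mono fun m a => by
      have b := dvd_der a
      rw [map_sub, mul_sub, s1, add_comm, sum_range_add] at b
      rw [add_comm] at a
      convert (b.sub (a.mul_right (∑ i ∈ range J, (n i : k) • σ i +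
        ∑ i ∈ range m, (n (J + i) : k) • σ (J + i)))).mul_right y⁻¹ using 1
      linear_combination -(∑ i ∈ range J, (n i : k) • σ i +
        ∑ i ∈ range m, (n (J + i) : k) • σ (J + i)) * y1
  have s3 : IsAlgebraic k[X] ((T p e θ 0 : k⟦X⟧) * S) := (alg_coe _).mul ((ai y1 hy).sub
    (sum_induction _ _ (fun _ _ => .add) isAlgebraic_zero fun i _ => by
      rw [Nat.cast_smul_eq_nsmul]; exact (ai (v1 i) (alg_coe _)).nsmul _))
  set M := (J + d).factorial
  obtain ⟨s, t, st, hst⟩ := Set.Finite.exists_lt_map_eq_of_forall_mem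
    (f := fun m => (U ^ (m * M)) ((T p e θ 0 : k⟦X⟧) * S)) (fun m => Set.mem_range_self (m * M)) (christol s3)
  let ε := fun j m => (j - m * d % j) % j
  have ε1 : ∀ j m, j ≠ 0 → ε j m < j ∧ j ∣ ε j m + m * d := fun j m j0 =>
    ⟨Nat.mod_lt _ (by omega), by
      rw [Nat.dvd_iff_mod_eq_zero, Nat.mod_add_mod, Nat.add_mod, Nat.mod_add_mod,
        Nat.sub_add_cancel (Nat.mod_lt _ (by omega)).le, Nat.mod_self]⟩
  have ε2 : ∀ j, j ≠ 0 → (ε j (t * M) = ε j (s * M) ↔ j ∣ (t - s) * M * d) := fun j j0 => by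
    have a := ε1 j (t * M) j0
    have b := ε1 j (s * M) j0
    obtain ⟨r, rfl⟩ := Nat.exists_eq_add_of_le st.le
    rw [Nat.add_sub_cancel_left]
    refine ⟨fun c => (Nat.dvd_add_right b.2).mp (by convert a.2 using 1; rw [c]; ring), fun c => ?_⟩
    refine Nat.ModEq.eq_of_lt_of_lt (.add_right_cancel' (s * M * d) (.trans ?_
      ((Nat.modEq_zero_iff_dvd).mpr b.2).symm)) a.1 b.1
    exact (Nat.modEq_zero_iff_dvd).mpr ((Nat.dvd_add_left c).mp (by convert a.2 using 1; ring))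
  let Δ := fun j => ((T p e θ (ε j (t * M)) : k⟦X⟧) - (T p e θ (ε j (s * M)) : k⟦X⟧)) * H p e θ j
  have Δ1 : ∀ j, d ≤ j → (U ^ (t * M) - U ^ (s * M) : Module.End k k⟦X⟧) ((T p e θ 0 : k⟦X⟧) * H p e θ j) =
      Δ j := fun j l => by
    rw [LinearMap.sub_apply, orbit he hd hk l _ _ (ε1 j _ (by omega)).1 (ε1 j _ (by omega)).2,
      orbit he hd hk l _ _ (ε1 j _ (by omega)).1 (ε1 j _ (by omega)).2, ← sub_mul]
  have Δ2 : ∀ N, ∀ᶠ m in atTop, X ^ N ∣ ∑ i ∈ range m, (n (J + i) : k) • (Δ (J + i) - Δ (J + i + d)) :=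
    fun N => (s2 (N * Fintype.card k ^ (t * M))).mono fun m a => by
      have b := a.mul_left (T p e θ 0 : k⟦X⟧)
      have c := (U_dvd _ b).sub (U_dvd (s * M) ((pow_dvd_pow _ (Nat.mul_le_mul_left N
        (Nat.pow_le_pow_right Fintype.card_pos (Nat.mul_le_mul_right M st.le)))).trans b))
      rw [mul_sub, map_sub, map_sub, ← hst, sub_sub_sub_cancel_right, ← LinearMap.sub_apply, mul_sum,
        map_sum] at c
      convert c using 2 with i
      rw [mul_smul_comm, map_smul, ← Δ1 _ (by omega), ← Δ1 _ (by omega), ← map_sub, ← mul_sub]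
      have := v_der he hv (d + 2 + i)
      rw [show d + 2 + i + 1 = J + i by omega] at this
      simp only [σ, this]
      rw [mul_right_comm, v1, one_mul]
  have ex : ∃ i, (n (J + (d + i)) : k) ≠ n (J + i) ∧
      ε (J + (d + i)) (t * M) ≠ ε (J + (d + i)) (s * M) := by
    obtain ⟨i, a, b⟩ := hc (J + (t - s) * M * d)
    obtain ⟨i, rfl⟩ := Nat.exists_eq_add_of_le (show J ≤ i by omega)
    refine ⟨i, by rwa [add_comm d, ← add_assoc], (ε2 _ (by omega)).not.mpr fun c => ?_⟩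
    have := Nat.le_of_dvd (mul_pos (mul_pos (by omega) (show 0 < M from Nat.factorial_pos _))
      (by omega)) c
    omega
  obtain ⟨a1, a2⟩ := Nat.find_spec ex
  obtain ⟨I, hI⟩ : ∃ I, J + (d + Nat.find ex) = I + 1 := ⟨J + (d + Nat.find ex) - 1, by omega⟩
  set G := Good k ((p ^ e) ^ I) ((p ^ e) ^ (I + 1))
  have g1 : ∀ j, I + 1 < j → Δ j ∈ G := fun j l => by
    simpa only [Δ, sub_mul] using G.sub_mem (good he l _) (good he l _)
  obtain ⟨m, m1, m2⟩ := ((Δ2 (2 * (p ^ e) ^ (I + 1))).and (eventually_gt_atTop (I + 1))).exists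
  have g2 : ∑ i ∈ range m, ((n (J + (d + i)) : k) - n (J + i)) • Δ (J + (d + i)) ∈ G := by
    have a := sum_range_add (fun i => (n (J + i) : k) • Δ (J + i)) m d
    rw [add_comm, sum_range_add, sum_eq_zero fun i hi => by
      simp only [Δ, (ε2 (J + i) (by omega)).mpr (((Nat.dvd_factorial (by omega) (by
        have := mem_range.mp hi; omega)).mul_left _).mul_right _), sub_self, zero_mul, smul_zero],
      zero_add] at a
    convert G.add_mem (show _ ∈ G from ⟨0, 0, by simp, by simpa using Fintype.card_pos, by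
      simpa using m1.mul_left _⟩) (G.sum_mem fun i (_ : i ∈ range d) =>
        G.smul_mem (n (J + (m + i)) : k) (g1 (J + (m + i)) (by omega))) using 1
    simp only [sub_smul, smul_sub, sum_sub_distrib, a, show ∀ i, J + i + d = J + (d + i) by omega]
    ring
  rw [← add_sum_erase _ _ (mem_range.mpr (show Nat.find ex < m by omega)),
    G.add_mem_iff_left (G.sum_mem fun i hi => ?_), G.smul_mem_iff (sub_ne_zero.mpr a1), hI] at g2
  · have l : Fintype.card k + 2 < (p ^ e) ^ I := by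
      have := Nat.pow_le_pow_right (show 0 < p ^ e by omega) (show d + 2 ≤ I by omega)
      rw [pow_add, ← hk] at this
      nlinarith [Fintype.one_lt_card (α := k), Nat.pow_le_pow_left q 2]
    rw [hI] at a2
    have a := (ε1 (I + 1) (t * M) (by omega)).1
    have b := (ε1 (I + 1) (s * M) (by omega)).1
    rcases a2.lt_or_gt with c | c
    · exact bad he l (by omega) c (by simpa only [Δ, ← neg_mul, neg_sub] using G.neg_mem g2)
    · exact bad he l (by omega) c g2
  rcases (ne_of_mem_erase hi).lt_or_gt with c | c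
  · rcases not_and_or.mp (Nat.find_min ex c) with c | c <;> simp [Δ, not_not.mp c]
  · exact G.smul_mem _ (g1 _ (by omega))

include he hd hk hv v0 in
theorem core (B : ℕ) : ∀ (n : ℕ → ℕ) (y : k⟦X⟧), (∀ i, n i < p ^ B) →
    Lim (fun m => ∏ i ∈ range m, (v i : k⟦X⟧) ^ n i) y → IsAlgebraic k[X] y →
      ∃ J, ∀ i ≥ J, n (i + d) = n i := by
  induction B with
  | zero => exact fun n _ h _ _ => ⟨0, fun i _ => by simp_all⟩
  | succ B ih =>
    intro n y hn h hy
    have p0 := (Fact.out : p.Prime).pos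
    obtain ⟨J, hJ⟩ := modp he hd hk hv v0 h hy
    replace hJ : ∀ i ≥ J, n (i + d) % p = n i % p := fun i l =>
      (CharP.natCast_eq_natCast k p).mp (hJ i l)
    obtain ⟨y1, h1⟩ := v_lim he hk hv v0 0 fun i => n i % p
    obtain ⟨y2, h2⟩ := v_lim he hk hv v0 0 fun i => n i / p
    simp only [zero_add] at h1 h2
    have e := h.unique (show Lim _ (y1 * y2 ^ p) by
      convert h1.mul (h2.pow p) using 2 with m
      simp only [← prod_pow, ← prod_mul_distrib, ← pow_mul, ← pow_add, Nat.mod_add_div'])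
    obtain ⟨J', h3⟩ := ih _ y2 (fun i => by
      rw [Nat.div_lt_iff_lt_mul p0, ← pow_succ]; exact hn i) h2 (.of_pow p0 (.of_mul
        (mem_nonZeroDivisors_of_ne_zero fun c => by
          simpa [c] using h1.cc fun m => by simp [v_cc he hk hv v0])
        (periodic he hd hk hv v0 (r := fun i => n i % p) hJ h1) (e ▸ hy)))
    exact ⟨max J J', fun i l => by
      rw [← Nat.mod_add_div (n (i + d)) p, hJ i (by omega), h3 i (by omega), Nat.mod_add_div]⟩

end Pool.Agent.H46.Yao
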