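import Pool.Agent.H46.Yao.Defs
import Pool.Agent.H46.Yao.Core

set_option autoImplicit false
set_option linter.unusedSectionVars false

namespace Pool.Agent.H46.Yao

open Polynomial Finset

variable {F : Type} [Field F] [Fintype F]

lemma fin_L (j : ℕ) : {b : F[X] | b.degree < j}.Finite := by
  have : Finite (degreeLT F j) := .of_equiv _ (degreeLTEquiv F _).symm.toEquiv
  exact (Set.toFinite (degreeLT F j : Set F[X])).subset fun b h => mem_degreeLT.mpr h

variable (F) in
/-- polynomials of degree `< j` -/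
noncomputable def L (j : ℕ) : Finset F[X] := (fin_L j).toFinset

lemma mem_L {j : ℕ} {b : F[X]} : b ∈ L F j ↔ ∀ m, j ≤ m → b.coeff m = 0 := by
  rw [L, Set.Finite.mem_toFinset, Set.mem_ofPred_eq, degree_lt_iff_coeff_zero]

/-- Carlitz's `e_j` -/
noncomputable def E (j : ℕ) (z : F[X]) : F[X] := ∏ b ∈ L F j, (z + b)

lemma prod_L {M : Type} [CommMonoid M] (j : ℕ) (f : F[X] → M) :
    ∏ a ∈ L F (j + 1), f a = ∏ c : F, ∏ b ∈ L F j, f (C c * X ^ j + b) := by
  rw [← prod_product']
  refine prod_nbij' (fun a => (a.coeff j, a - C (a.coeff j) * X ^ j)) (fun a => C a.1 * X ^ j + a.2)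
    (fun a h => ?_) (fun a h => ?_) (by simp) (fun a h => ?_) (by simp)
  all_goals simp only [mem_product, mem_univ, true_and, mem_L] at *
  · intro m l
    rcases l.eq_or_lt with rfl | l
    · simp
    · simp [h m l, l.ne']
  · intro m l
    simp [h m (by omega), show m ≠ j by omega]
  · simp [h j le_rfl]

lemma L_zero : L F 0 = {0} := by ext b; simp [mem_L, Polynomial.ext_iff]

lemma card_L (j : ℕ) : (L F j).card = Fintype.card F ^ j := by
  induction j with
  | zero => simp [L_zero]
  | succ j ih =>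
    have := prod_L (F := F) j fun _ => (2 : ℕ)
    simp only [prod_const, ih, ← pow_mul, card_univ] at this
    rw [Nat.pow_right_injective le_rfl this, pow_succ]

lemma homog (y : F[X]) {D : F[X]} (h : D ≠ 0) :
    ∏ c : F, (y + C c * D) = y ^ Fintype.card F - D ^ (Fintype.card F - 1) * y := by
  have a : ∏ c : F, (X - C c) = X ^ Fintype.card F - X := by
    have := prod_multiset_X_sub_C_of_monic_of_roots_card_eq (p := (X ^ Fintype.card F - X : F[X]))
      (monic_X_pow_sub (by simpa using Fintype.one_lt_card)) (by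
        rw [FiniteField.roots_X_pow_card_sub_X, FiniteField.X_pow_card_sub_X_natDegree_eq F
          Fintype.one_lt_card]; rfl)
    rwa [FiniteField.roots_X_pow_card_sub_X] at this
  let φ := algebraMap F[X] (RatFunc F)
  have b := congrArg (aeval (φ y / φ D)) a
  have D0 : φ D ≠ 0 := (map_ne_zero_iff φ (RatFunc.algebraMap_injective F)).mpr h
  obtain ⟨r, hr⟩ : ∃ r, Fintype.card F = r + 1 := Nat.exists_eq_add_of_le' Fintype.card_pos
  apply RatFunc.algebraMap_injective F
  rw [← Equiv.prod_comp (Equiv.neg F)] at b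
  simp only [map_prod, map_sub, map_pow, aeval_X, aeval_C, Equiv.neg_apply, map_neg, sub_neg_eq_add,
    map_add] at b
  calc φ (∏ c : F, (y + C c * D)) = ∏ c : F, φ D * (φ y / φ D + algebraMap F _ c) := by
        rw [map_prod]; refine prod_congr rfl fun c _ => ?_
        rw [map_add, map_mul, IsScalarTower.algebraMap_apply F F[X]]; field_simp
        rw [mul_comm]; rfl
    _ = _ := by
        rw [prod_mul_distrib, b, prod_const, card_univ, hr, map_sub, map_mul, map_pow, map_pow, div_pow]
        change _ = φ y ^ _ - φ D ^ r * φ y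
        field_simp; ring

variable (F) in
/-- Carlitz's `D_j` -/
noncomputable def Df (j : ℕ) : F[X] := E j (X ^ j)

lemma monic_L {j : ℕ} {b : F[X]} (h : b ∈ L F j) : (X ^ j + b).Monic ∧ (X ^ j + b).natDegree = j := by
  rw [mem_L, ← degree_lt_iff_coeff_zero] at h
  exact ⟨monic_X_pow_add h, natDegree_eq_of_degree_eq_some (by
    rw [degree_add_eq_left_of_degree_lt (by rwa [degree_X_pow]), degree_X_pow])⟩

lemma Df_ne (j : ℕ) : Df F j ≠ 0 := prod_ne_zero_iff.mpr fun _ h => (monic_L h).1.ne_zero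

lemma frob (a b : F[X]) (c : F) :
    (a + C c * b) ^ Fintype.card F = a ^ Fintype.card F + C c * b ^ Fintype.card F := by
  have := map_add (FiniteField.frobeniusAlgHom F F[X]) a (C c * b)
  simp only [FiniteField.coe_frobeniusAlgHom] at this
  rw [this, mul_pow, ← map_pow, FiniteField.pow_card]

lemma E_lin (j : ℕ) : (∀ z y c, E j (z + C c * y) = E j z + C c * E (F := F) j y) ∧ ∀ z : F[X],
    E (j + 1) z = E j z ^ Fintype.card F - Df F j ^ (Fintype.card F - 1) * E j z := by
  have key : ∀ j, (∀ z y c, E j (z + C c * y) = E j z + C c * E (F := F) j y) → ∀ z : F[X],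
      E (j + 1) z = E j z ^ Fintype.card F - Df F j ^ (Fintype.card F - 1) * E j z := fun j h z => by
    rw [← homog _ (Df_ne j), E, prod_L]
    simp only [Df, ← h]
    simp only [E, add_assoc]
  suffices ∀ z y c, E j (z + C c * y) = E j z + C c * E (F := F) j y from ⟨this, key j this⟩
  induction j with
  | zero => simp [E, L_zero]
  | succ j ih => intro z y c; simp only [key j ih, ih, frob]; ring

lemma E_zero {j : ℕ} : E (j + 1) (X ^ j : F[X]) = 0 := by
  obtain ⟨r, hr⟩ : ∃ r, Fintype.card F = r + 1 := Nat.exists_eq_add_of_le' Fintype.card_pos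
  rw [(E_lin j).2, ← Df, hr, Nat.add_sub_cancel, pow_succ, sub_self]

lemma E_X (j : ℕ) (z : F[X]) : E (j + 1) (X * z) = X * E (j + 1) z +
    (X ^ Fintype.card F ^ (j + 1) - X) * E j z ^ Fintype.card F := by
  have a : ∀ a b : F[X], (a + b) ^ Fintype.card F = a ^ Fintype.card F + b ^ Fintype.card F :=
    fun a b => by simpa using frob a b 1
  have s : ∀ a b : F[X], (a - b) ^ Fintype.card F = a ^ Fintype.card F - b ^ Fintype.card F :=
    fun a b => by simpa [sub_eq_add_neg] using frob a b (-1)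
  induction j generalizing z with
  | zero => simp only [(E_lin 0).2, Df]; simp [E, L_zero]; ring
  | succ j ih =>
    have b := ih (X ^ j)
    rw [← pow_succ', E_zero, mul_zero, zero_add, ← Df, ← Df] at b
    have c := congrArg (· ^ Fintype.card F) ((E_lin j).2 z)
    simp only [(E_lin (j + 1)).2, ih, b, a, s, mul_pow, c, pow_succ _ (j + 1), pow_mul] at c ⊢
    obtain ⟨r, hr⟩ : ∃ r, Fintype.card F = r + 1 := Nat.exists_eq_add_of_le' Fintype.card_pos
    rw [← s (X ^ _)]
    generalize (X : F[X]) ^ Fintype.card F ^ (j + 1) = t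
    have := s t X
    rw [hr, Nat.add_sub_cancel] at *
    rw [show t ^ (r + 1) = (t - X) ^ (r + 1) + X ^ (r + 1) by linear_combination -this]
    ring

lemma Df_succ (j : ℕ) : Df F (j + 1) = (X ^ Fintype.card F ^ (j + 1) - X) * Df F j ^ Fintype.card F := by
  have b := E_X j (X ^ j : F[X])
  rwa [← pow_succ', E_zero, mul_zero, zero_add] at b

variable (F) in
/-- monic polynomials of degree `j` -/
noncomputable def Mon (j : ℕ) : Finset F[X] := (L F j).map (addLeftEmbedding (X ^ j))

lemma mem_Mon {j : ℕ} {a : F[X]} : a ∈ Mon F j ↔ a.Monic ∧ a.natDegree = j := by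
  simp only [Mon, mem_map, addLeftEmbedding_apply]
  refine ⟨by rintro ⟨b, h, rfl⟩; exact monic_L h, fun ⟨h, e⟩ => ⟨a - X ^ j, ?_, by simp⟩⟩
  rw [mem_L, ← degree_lt_iff_coeff_zero, ← e, ← degree_eq_natDegree h.ne_zero]
  exact degree_sub_lt_left (by simp [degree_eq_natDegree h.ne_zero]) h.ne_zero (by simp [h])

open Classical in
lemma Dv_eq (v : F[X]) (j : ℕ) : Dv v j = ∏ a ∈ Mon F j with ¬v ∣ a, a := by
  rw [Dv, ← finprod_mem_coe_finset]; simp [mem_Mon, and_assoc]

lemma Dv_ne (v : F[X]) (j : ℕ) : Dv v j ≠ 0 := by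
  classical
  rw [Dv_eq]; exact prod_ne_zero_iff.mpr fun a h => (mem_Mon.mp (mem_filter.mp h).1).1.ne_zero

lemma Df_eq {v : F[X]} (hv : v.Monic) (j : ℕ) :
    Df F (j + v.natDegree) = v ^ Fintype.card F ^ j * Df F j * Dv v (j + v.natDegree) := by
  classical
  have a : ∀ j, Df F j = ∏ a ∈ Mon F j, a := fun j => by simp [Mon, Df, E]
  rw [a, a, Dv_eq, ← prod_filter_mul_prod_filter_not _ (v ∣ ·), ← card_L,
    ← card_map (addLeftEmbedding (X ^ j : F[X])), ← prod_const, ← Mon, ← prod_mul_distrib]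
  congr 1
  refine (prod_bij (fun b _ => v * b) (fun b h => ?_) (fun a _ b _ => mul_left_cancel₀ hv.ne_zero)
    (fun a h => ?_) fun _ _ => rfl).symm
  · rw [mem_Mon] at h
    simp [mem_Mon, hv.mul h.1, hv.natDegree_mul h.1, h.2, add_comm]
  obtain ⟨h, b, rfl⟩ := mem_filter.mp h
  rw [mem_Mon] at h
  have := hv.of_mul_monic_left h.1
  exact ⟨b, mem_Mon.mpr ⟨this, by have := hv.natDegree_mul this; omega⟩, rfl⟩

lemma Dv_succ {v : F[X]} (hv : v.Monic) (i : ℕ) :
    Dv v (i + 1 + v.natDegree) * (X ^ Fintype.card F ^ (i + 1) - X) =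
      (X ^ Fintype.card F ^ (i + 1 + v.natDegree) - X) * Dv v (i + v.natDegree) ^ Fintype.card F := by
  have := Df_eq hv (i + 1)
  rw [Df_succ, add_right_comm, Df_succ, Df_eq hv, ← add_right_comm, pow_succ, pow_mul] at this
  refine mul_left_cancel₀ (pow_ne_zero (Fintype.card F) (mul_ne_zero (pow_ne_zero
    (Fintype.card F ^ i) hv.ne_zero) (Df_ne i))) ?_
  rw [pow_succ, pow_mul]
  linear_combination -this

lemma wilson {v : F[X]} (hv : v.Monic) [Fact (Irreducible v)] :
    AdjoinRoot.mk v (Dv v v.natDegree) = -1 := by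
  classical
  have := (AdjoinRoot.powerBasis hv.ne_zero).finite
  have : Finite (AdjoinRoot v) := Module.finite_of_finite F
  have := Fintype.ofFinite (AdjoinRoot v)ˣ
  have := congrArg Units.val (FiniteField.prod_univ_units_id_eq_neg_one (K := AdjoinRoot v))
  rw [Units.coe_prod] at this
  rw [Dv_eq, map_prod, ← show _ = (-1 : AdjoinRoot v) from this]
  refine prod_bij (fun a h => Units.mk0 _ (AdjoinRoot.mk_eq_zero.not.mpr (mem_filter.mp h).2))
    (by simp) (fun a h b g e => ?_) (fun u _ => ?_) fun _ _ => rfl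
  · have h := mem_Mon.mp (mem_filter.mp h).1
    have g := mem_Mon.mp (mem_filter.mp g).1
    refine sub_eq_zero.mp (eq_zero_of_dvd_of_degree_lt (AdjoinRoot.mk_eq_mk.mp (by simpa using e)) ?_)
    rw [degree_eq_natDegree hv.ne_zero, ← h.2, ← degree_eq_natDegree h.1.ne_zero]
    exact degree_sub_lt_left (by rw [degree_eq_natDegree h.1.ne_zero, degree_eq_natDegree g.1.ne_zero,
      h.2, g.2]) h.1.ne_zero (by rw [h.1, g.1])
  obtain ⟨b, hb⟩ := AdjoinRoot.mk_surjective (u : AdjoinRoot v)
  have l := degree_modByMonic_lt b hv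
  have e : AdjoinRoot.mk v (v + b %ₘ v) = u := by
    rw [← hb, AdjoinRoot.mk_eq_mk]
    exact ⟨1 - b /ₘ v, by linear_combination modByMonic_add_div b v⟩
  exact ⟨v + b %ₘ v, mem_filter.mpr ⟨mem_Mon.mpr ⟨hv.add_of_left l,
    natDegree_add_eq_left_of_degree_lt l⟩, AdjoinRoot.mk_eq_zero.not.mp (e ▸ u.ne_zero)⟩,
    Units.ext e⟩

end Pool.Agent.H46.Yao
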