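import Mathlib

set_option autoImplicit false
set_option linter.unusedSectionVars false

namespace Pool.Agent.H46.Yao

open PowerSeries
open scoped Polynomial

variable {k : Type} [Field k] [Fintype k]

local instance : NeZero (Fintype.card k) := ⟨Fintype.card_ne_zero⟩

/-- the Cartier operator for the form `du / u` -/
noncomputable def U : k⟦X⟧ →ₗ[k] k⟦X⟧ where
  toFun f := mk fun n => coeff (n * Fintype.card k) f
  map_add' f g := by ext; simp
  map_smul' c f := by ext; simp

lemma coeff_U (f : k⟦X⟧) (n : ℕ) : coeff n (U f) = coeff (n * Fintype.card k) f :=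
  coeff_mk n fun n => coeff (n * Fintype.card k) f

lemma eq_of_dvd {f g : k⟦X⟧} (h : ∀ N, X ^ N ∣ f - g) : f = g := by
  ext n
  simpa [sub_eq_zero] using X_pow_dvd_iff.mp (h (n + 1)) n n.lt_succ_self

lemma U_X (i : ℕ) (f : k⟦X⟧) : U ((X ^ i) ^ Fintype.card k * f) = X ^ i * U f := by
  ext n
  simp only [coeff_U, ← pow_mul, coeff_X_pow_mul', mul_le_mul_iff_left₀ Fintype.card_pos, Nat.sub_mul]

lemma U_mul (g f : k⟦X⟧) : U (g ^ Fintype.card k * f) = g * U f := by
  have a : ∀ g h : k⟦X⟧, (g + h) ^ Fintype.card k = g ^ Fintype.card k + h ^ Fintype.card k :=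
    map_add (FiniteField.frobeniusAlgHom k k⟦X⟧)
  have b : ∀ g : k[X], U ((g : k⟦X⟧) ^ Fintype.card k * f) = g * U f := fun g => by
    induction g using Polynomial.induction_on' with
    | add p q hp hq => rw [Polynomial.coe_add, a, add_mul, map_add, hp, hq, add_mul]
    | monomial n c =>
      rw [← Polynomial.C_mul_X_pow_eq_monomial, Polynomial.coe_mul, Polynomial.coe_pow,
        Polynomial.coe_C, Polynomial.coe_X, mul_pow, ← map_pow, FiniteField.pow_card, mul_assoc,
        ← smul_eq_C_mul, map_smul, U_X, smul_eq_C_mul, mul_assoc]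
  refine eq_of_dvd fun N => ?_
  rw [g.eq_X_pow_mul_shift_add_trunc N, a, add_mul, map_add, b, mul_pow, mul_assoc, U_X, add_mul,
    add_sub_add_right_eq_sub, mul_assoc, ← mul_sub]
  exact dvd_mul_right _ _

lemma U_coe (c : k[X]) : U (c : k⟦X⟧) = (c.contract (Fintype.card k) : k[X]) := by
  ext n
  rw [coeff_U, Polynomial.coeff_coe, Polynomial.coeff_coe, Polynomial.coeff_contract (NeZero.ne _)]

lemma U_dvd {N : ℕ} {f : k⟦X⟧} (m : ℕ) (h : X ^ (N * Fintype.card k ^ m) ∣ f) : X ^ N ∣ (U ^ m) f := by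
  induction m generalizing f with
  | zero => simpa using h
  | succ m ih =>
    obtain ⟨g, rfl⟩ := h
    rw [pow_succ U, Module.End.mul_apply, pow_succ, ← mul_assoc, pow_mul, U_X]
    exact ih (dvd_mul_right _ _)

lemma alg_map (p : k[X]) : algebraMap k[X] k⟦X⟧ p = p := by rw [algebraMap_apply']; simp

lemma smul_eq (p : k[X]) (f : k⟦X⟧) : p • f = p * f := by rw [Algebra.smul_def, alg_map]

lemma alg_coe (p : k[X]) : IsAlgebraic k[X] (p : k⟦X⟧) := by
  rw [← alg_map]; exact isAlgebraic_algebraMap p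

theorem lattice {f : k⟦X⟧} (hf : IsAlgebraic k[X] f) : ∃ (n : ℕ) (b : Fin n → k⟦X⟧) (δ : k[X])
    (c : Fin n → k[X]) (M : Fin n → Fin n → k[X]), δ ≠ 0 ∧ (∀ i, IsAlgebraic k[X] (b i)) ∧
    δ * f = ∑ i, ↑(c i) * b i ∧ ∀ i, δ * b i = ∑ j, ↑(M i j) * b j ^ Fintype.card k := by
  obtain ⟨a, a0, ha⟩ := hf.exists_integral_multiple
  let A := Algebra.adjoin k[X] {a • f}
  have : Module.Finite k[X] A := Algebra.finite_adjoin_simple_of_isIntegral ha
  have : Module.IsTorsionFree k[X] k⟦X⟧ := .of_smul_eq_zero fun r m h => by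
    simpa [smul_eq] using h
  let b := Module.finBasis k[X] A
  have e : ∀ {n} (z : A) (c : Fin n → k[X]) (v : Fin n → A), z = ∑ i, c i • v i →
      (z : k⟦X⟧) = ∑ i, ↑(c i) * (v i : k⟦X⟧) := fun z c v h => by simp [h, smul_eq]
  have li : LinearIndependent k[X] fun i => b i ^ Fintype.card k := by
    refine Fintype.linearIndependent_iff.mpr fun c h i => Polynomial.ext fun m => ?_
    set s := m * Fintype.card k - m
    have := congrArg (fun z => U (X ^ s * z)) (e _ _ _ h.symm)
    simp only [ZeroMemClass.coe_zero, mul_zero, map_zero, Finset.mul_sum, map_sum, ← mul_assoc,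
      ← Polynomial.coe_X, ← Polynomial.coe_pow, ← Polynomial.coe_mul, SubmonoidClass.coe_pow] at this
    simp only [mul_comm _ (_ ^ Fintype.card k), U_mul, U_coe] at this
    have := Fintype.linearIndependent_iff.mp b.linearIndependent
      (fun i => (Polynomial.X ^ s * c i).contract (Fintype.card k))
      (Subtype.ext (by simpa [smul_eq, mul_comm] using this.symm)) i
    have := congrArg (Polynomial.coeff · m) this
    simp only [Polynomial.coeff_contract (NeZero.ne _)] at this
    rwa [← Nat.sub_add_cancel (Nat.le_mul_of_pos_right m Fintype.card_pos), add_comm,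
      Polynomial.coeff_X_pow_mul] at this
  have : ∀ i, ∃ (d : k[X]) (c : Fin (Module.finrank k[X] A) → k[X]), d ≠ 0 ∧ d • b i = ∑ j, c j • b j ^ Fintype.card k :=
    fun i => by
      by_contra! h
      have : LinearIndependent k[X] (Fin.cons (b i) fun i => b i ^ Fintype.card k : Fin (_ + 1) → A) :=
        Fintype.linearIndependent_iff.mpr fun g hg => by
          simp only [Fin.sum_univ_succ, Fin.cons_zero, Fin.cons_succ] at hg
          have g0 : g 0 = 0 := by_contra fun c => h _ (fun j => -g j.succ) c (by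
            simpa using eq_neg_of_add_eq_zero_left hg)
          exact Fin.cases g0 (Fintype.linearIndependent_iff.mp li _ (by simpa [g0] using hg))
      simpa using this.fintype_card_le_finrank
  choose d M d0 hM using this
  refine ⟨_, fun i => b i, a * ∏ i, d i, fun i => (∏ i, d i) * b.repr ⟨_, Algebra.subset_adjoin rfl⟩ i,
    fun i j => a * (∏ l ∈ Finset.univ.erase i, d l) * M i j,
    mul_ne_zero a0 (Finset.prod_ne_zero_iff.mpr fun i _ => d0 i), fun i => ?_, ?_, fun i => ?_⟩
  · exact ((Algebra.IsIntegral.isIntegral (b i)).map A.val).isAlgebraic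
  · have := e _ _ _ (b.sum_repr ⟨_, Algebra.subset_adjoin rfl⟩).symm
    simp only [Polynomial.coe_mul, mul_assoc, ← Finset.mul_sum]
    rw [← this]; simp only [smul_eq]; ring
  · have := e _ _ _ (hM i)
    simp only [SubmonoidClass.coe_pow, SetLike.val_smul, smul_eq] at this
    simp only [Polynomial.coe_mul, mul_assoc, ← Finset.mul_sum, ← this,
      ← Finset.mul_prod_erase _ d (Finset.mem_univ i)]; ring

theorem alg_der {f : k⟦X⟧} (hf : IsAlgebraic k[X] f) : IsAlgebraic k[X] (d⁄dX k f) := by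
  obtain ⟨n, b, δ, c, M, h0, h1, h2, h3⟩ := lattice hf
  have s : ∀ g : Fin n → k⟦X⟧, (∀ i, IsAlgebraic k[X] (g i)) → IsAlgebraic k[X] (∑ i, g i) :=
    fun g h => Finset.sum_induction _ _ (fun _ _ => .add) isAlgebraic_zero fun i _ => h i
  have key : ∀ {f g : k⟦X⟧}, IsAlgebraic k[X] f → δ * f = g → IsAlgebraic k[X] (d⁄dX k g) →
      IsAlgebraic k[X] (d⁄dX k f) := fun {f g} a e b => by
    refine .of_mul (mem_nonZeroDivisors_of_ne_zero (by simpa using h0)) (alg_coe δ) ?_
    convert b.sub (a.mul (alg_coe δ.derivative)) using 1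
    rw [← e, Derivation.leibniz, derivative_coe]; simp
  refine key hf h2 ?_
  simp only [map_sum, Derivation.leibniz, derivative_coe, smul_eq_mul]
  refine s _ fun i => ((alg_coe _).mul (key (h1 i) (h3 i) ?_)).add ((h1 i).mul (alg_coe _))
  simp only [map_sum, Derivation.leibniz, derivative_coe, smul_eq_mul, derivative_pow,
    ← map_natCast (C : k →+* _), FiniteField.cast_card_eq_zero, map_zero, zero_mul, mul_zero, zero_add]
  exact s _ fun j => ((h1 j).pow _).mul (alg_coe _)

theorem christol {f : k⟦X⟧} (hf : IsAlgebraic k[X] f) : (Set.range fun m => (U ^ m) f).Finite := by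
  obtain ⟨n, b, δ, c, M, h0, -, h2, h3⟩ := lattice hf
  obtain ⟨Q, hQ⟩ : ∃ Q, Fintype.card k = Q + 2 := Nat.exists_eq_add_of_le' Fintype.one_lt_card
  obtain ⟨N, hN⟩ := (Finset.univ.image (fun i => (c i).natDegree) ∪
    Finset.univ.image fun a : Fin n × Fin n => (δ ^ Q * M a.1 a.2).natDegree).exists_le
  simp only [Finset.mem_union, Finset.mem_image, Finset.mem_univ, true_and, or_imp, forall_and,
    forall_exists_index, forall_apply_eq_imp_iff, Prod.forall] at hN
  have key : ∀ m, ∃ c : Fin n → k[X], (∀ i, (c i).natDegree ≤ N) ∧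
      δ * (U ^ m) f = ∑ i, ↑(c i) * b i := fun m => by
    induction m with
    | zero => exact ⟨c, hN.1, h2⟩
    | succ m ih =>
      obtain ⟨c, a, e⟩ := ih
      refine ⟨fun j => (∑ i, c i * (δ ^ Q * M i j)).contract (Fintype.card k), fun j => ?_, ?_⟩
      · refine Polynomial.natDegree_le_iff_coeff_eq_zero.mpr fun l hl => ?_
        rw [Polynomial.coeff_contract (NeZero.ne _)]
        refine Polynomial.coeff_eq_zero_of_natDegree_lt ((Polynomial.natDegree_sum_le_of_forall_le
          _ _ fun i _ => Polynomial.natDegree_mul_le.trans (add_le_add (a i) (hN.2 _ i j rfl))).trans_lt ?_)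
        rw [hQ]; nlinarith
      rw [pow_succ' U, Module.End.mul_apply, ← U_mul]
      simp only [← U_coe, mul_comm _ (b _), ← U_mul, ← map_sum]
      congr 1
      have : ∀ j, ((∑ i, c i * (δ ^ Q * M i j) : k[X]) : k⟦X⟧) =
          ∑ i, (c i : k⟦X⟧) * ((δ : k⟦X⟧) ^ Q * (M i j : k⟦X⟧)) :=
        fun j => by simp [← alg_map]
      simp only [this, Finset.mul_sum]
      rw [Finset.sum_comm, hQ, pow_succ, mul_assoc, e, Finset.mul_sum, ← hQ]
      refine Finset.sum_congr rfl fun i _ => ?_
      rw [pow_succ, mul_assoc, mul_left_comm (δ : k⟦X⟧), h3, Finset.mul_sum, Finset.mul_sum]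
      exact Finset.sum_congr rfl fun j _ => by ring
  have : Finite (Polynomial.degreeLT k (N + 1)) := .of_equiv _ (Polynomial.degreeLTEquiv k _).symm.toEquiv
  refine .of_finite_image (f := ((δ : k⟦X⟧) * ·)) ((Set.finite_range
    fun c : Fin n → Polynomial.degreeLT k (N + 1) => ∑ i, ((c i : k[X]) : k⟦X⟧) * b i).subset ?_)
    (mul_right_injective₀ (by simpa using h0)).injOn
  rintro _ ⟨_, ⟨m, rfl⟩, rfl⟩
  obtain ⟨c, a, e⟩ := key m
  exact ⟨fun i => ⟨c i, Polynomial.mem_degreeLT.mpr (Polynomial.degree_le_natDegree.trans_lt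
    (by exact_mod_cast Nat.lt_succ_of_le (a i)))⟩, e.symm⟩

end Pool.Agent.H46.Yao
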