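import Pool.Agent.H46.Yao.Carl

set_option autoImplicit false
set_option linter.unusedSectionVars false

namespace Pool.Agent.H46.Yao

open Polynomial Filter Topology IsDedekindDomain Finset
open scoped PowerSeries

lemma ev_dvd {F : Type} [Field F] {v : F[X]} (v0 : v ≠ 0) {𝔳 : HeightOneSpectrum F[X]}
    (h𝔳 : 𝔳.asIdeal = Ideal.span {v}) {a : ℕ → F[X]} (h : Tendsto (fun m =>
      algebraMap F[X] (𝔳.adicCompletion (RatFunc F)) (a m)) atTop (𝓝 0)) (N : ℕ) :
    ∀ᶠ m in atTop, v ^ N ∣ a m := by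
  let φ := algebraMap F[X] (𝔳.adicCompletion (RatFunc F))
  have val : ∀ a, Valued.v (φ a) = 𝔳.intValuation a := fun a =>
    (𝔳.valuedAdicCompletion_eq_valuation' _).trans (𝔳.valuation_of_algebraMap a)
  refine ((h.mul_const (φ v ^ N)⁻¹).eventually ((Valued.isOpen_integer _).mem_nhds
    (by simp))).mono fun m (hm : Valued.v (φ (a m) * _) ≤ 1) => ?_
  rw [map_mul, map_inv₀, map_pow, val, val, 𝔳.intValuation_singleton v0 h𝔳,
    mul_inv_le_iff₀ (by simp [pos_iff_ne_zero]), one_mul, ← WithZero.exp_nsmul] at hm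
  rw [← Ideal.mem_span_singleton, ← Ideal.span_singleton_pow, ← h𝔳, ← 𝔳.intValuation_le_pow_iff_mem]
  simpa using hm

lemma ex_tendsto {F : Type} [Field F] {v : F[X]} (v0 : v ≠ 0) {𝔳 : HeightOneSpectrum F[X]}
    (h𝔳 : 𝔳.asIdeal = Ideal.span {v}) {d : ℕ} {a : ℕ → F[X]} (h : ∀ i, v ^ i ∣ a (i + d) - 1) :
    ∃ x, Tendsto (fun m => ∏ j ∈ range m, algebraMap F[X] (𝔳.adicCompletion (RatFunc F)) (a j))
      atTop (𝓝 x) := by
  let φ := algebraMap F[X] (𝔳.adicCompletion (RatFunc F))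
  have val : ∀ a, Valued.v (φ a) = 𝔳.intValuation a := fun a =>
    (𝔳.valuedAdicCompletion_eq_valuation' _).trans (𝔳.valuation_of_algebraMap a)
  have key : ∀ N m, N + d ≤ m → v ^ N ∣ ∏ i ∈ range (N + d), a i - ∏ i ∈ range m, a i := fun N m l => by
    induction l with
    | refl => simp
    | @step m l ih =>
      replace l : N + d ≤ m := l
      obtain ⟨m, rfl⟩ := Nat.exists_eq_add_of_le' (show d ≤ m by omega)
      convert ih.sub (((pow_dvd_pow v (by omega)).trans (h m)).mul_left (∏ i ∈ range (m + d), a i))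
        using 1
      rw [prod_range_succ]; ring
  refine cauchySeq_tendsto_of_complete ((Valued.hasBasis_uniformity _ _).cauchySeq_iff'.mpr
    fun γ _ => ?_)
  obtain ⟨N, hN⟩ := ((Valued.tendsto_zero_pow_of_le_exp_neg_one (x := φ v) (by
    rw [val, 𝔳.intValuation_singleton v0 h𝔳])).eventually
      ((Valued.hasBasis_nhds_zero _ _).mem_of_mem (i := γ) trivial)).exists
  refine ⟨N + d, fun m l => lt_of_le_of_lt ?_ hN⟩
  obtain ⟨c, hc⟩ := key N m l
  rw [Valuation.restrict_le_iff, ← map_prod φ, ← map_prod φ, ← map_sub, hc, map_mul, map_mul, map_pow φ,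
    val c]
  exact mul_le_of_le_one_right' (𝔳.intValuation_le_one c)

theorem transfer {F k : Type} [Field F] [Field k] [Fintype k] {p e d : ℕ} [Fact p.Prime] [CharP k p]
    {θ : k} (he : e ≠ 0) (hd : d ≠ 0) (hk : Fintype.card k = (p ^ e) ^ d) {ψ : F[X] →+* k[X]}
    (i1 : Function.Injective ψ) {v : F[X]} (h3 : (ψ v).coeff 0 = 0) {D : ℕ → F[X]} (D0 : ∀ j, D j ≠ 0)
    (h1 : ∀ i, ψ (D (i + 1 + d)) * br p e θ (i + 1) = br p e θ (i + 1 + d) * ψ (D (i + d)) ^ p ^ e)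
    (h0 : (ψ (D (0 + d))).coeff 0 = 1) {n : ℕ → ℕ} (hn : ∀ j, n j < p ^ e) {g : F[X][X]} (g0 : g ≠ 0)
    (hg : ∀ N, ∀ᶠ m in atTop, v ^ N ∣ g.eval (∏ j ∈ range m, D j ^ n j)) :
    ∃ J, ∀ j ≥ J, n (j + d) = n j := by
  obtain ⟨y, hy⟩ := v_lim (v := fun i => ψ (D (i + d))) he hk h1 h0 0 fun i => n (d + i)
  simp only [zero_add] at hy
  let Ψ := (algebraMap k[X] k⟦X⟧).comp ψ
  let P := fun m => ∏ j ∈ range m, D j ^ n j
  have h2 : Lim (fun m => Ψ (P (m + d))) (ψ (P d) * y) := by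
    convert (Lim.const _).mul hy using 2 with m
    simp only [P, Ψ, add_comm m, prod_range_add, ← alg_map, map_mul, map_prod, map_pow,
      RingHom.comp_apply, add_comm _ d]
  have h3 : PowerSeries.X ∣ Ψ v := by simpa [Ψ, alg_map, PowerSeries.X_dvd_iff]
  have h4 : IsAlgebraic k[X] (ψ (P d) * y) := by
    refine ⟨g.map ψ, (Polynomial.map_ne_zero_iff i1).mpr g0, eq_of_dvd fun N => ?_⟩
    obtain ⟨m, a, b⟩ := ((h2 N).and ((tendsto_add_atTop_nat d).eventually (hg N))).exists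
    have c := map_dvd Ψ b
    rw [map_pow] at c
    have := ((pow_dvd_pow_of_dvd h3 N).trans c).sub (a.trans (sub_dvd_eval_sub _ _ (g.map Ψ)))
    rwa [eval_map_apply, sub_sub_cancel, ← Polynomial.map_map, eval_map_algebraMap, ← sub_zero (aeval _ _)] at this
  have h5 : (ψ (P d) : k⟦X⟧) ≠ 0 := by
    rw [Ne, coe_eq_zero_iff, map_eq_zero_iff _ i1]
    exact prod_ne_zero_iff.mpr fun j _ => pow_ne_zero _ (D0 j)
  obtain ⟨J, hJ⟩ := core (v := fun i => ψ (D (i + d))) he hd hk h1 h0 e (fun i => n (d + i)) y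
    (fun i => hn _) hy (.of_mul (mem_nonZeroDivisors_of_ne_zero h5) (alg_coe _) h4)
  exact ⟨d + J, fun j l => by
    obtain ⟨j, rfl⟩ := Nat.exists_eq_add_of_le (show d ≤ j by omega)
    rw [add_assoc]; exact hJ j (by omega)⟩

theorem back {F k : Type} [Field F] [Field k] {ψ : F[X] →+* k[X]} {v : F[X]}
    (h0 : ∀ a, (ψ a).coeff 0 = 0 ↔ v ∣ a) (h1 : (ψ v).coeff 1 ≠ 0) (N : ℕ) :
    ∀ a, X ^ N ∣ ψ a → v ^ N ∣ a := by
  induction N with
  | zero => simp
  | succ N ih =>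
    intro a h
    obtain ⟨b, rfl⟩ := (h0 a).mp (X_pow_dvd_iff.mp h 0 N.succ_pos)
    obtain ⟨w, hw⟩ := X_dvd_iff.mpr ((h0 v).mpr dvd_rfl)
    rw [map_mul, hw, pow_succ', mul_assoc, mul_dvd_mul_iff_left X_ne_zero] at h
    rw [pow_succ']
    refine mul_dvd_mul_left v (ih b (prime_X.pow_dvd_of_dvd_mul_left _ ?_ h))
    rwa [hw, coeff_X_mul, Ne, ← X_dvd_iff] at h1

theorem main {F : Type} [Field F] [Finite F] {v : F[X]} (hm : v.Monic) (hv : Irreducible v) :
    (∀ i, v ^ i ∣ -Dv v (i + v.natDegree) - 1) ∧ ∀ n : ℕ → ℕ, (∀ j, n j < Nat.card F) →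
    ∀ g : F[X][X], g ≠ 0 → (∀ N, ∀ᶠ m in atTop, v ^ N ∣ g.eval (∏ j ∈ range m, (-Dv v j) ^ n j)) →
    ∃ J, ∀ j ≥ J, n (j + v.natDegree) = n j := by
  have := Fintype.ofFinite F
  obtain ⟨p, hp⟩ := CharP.exists F
  obtain ⟨⟨e, he⟩, pp, hq⟩ := FiniteField.card F p
  replace hq : Fintype.card F = p ^ e := hq
  have := Fact.mk pp
  have := Fact.mk hv
  let k := AdjoinRoot v
  have := (AdjoinRoot.powerBasis hm.ne_zero).finite
  have : Finite k := Module.finite_of_finite F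
  have := Fintype.ofFinite k
  have := charP_of_injective_algebraMap (algebraMap F k).injective p
  have hk : Fintype.card k = (p ^ e) ^ v.natDegree := by
    rw [Module.card_eq_pow_finrank (K := F), hq, (AdjoinRoot.powerBasis hm.ne_zero).finrank]; rfl
  let θ : k := AdjoinRoot.root v
  let ψ : F[X] →+* k[X] := (taylorAlgHom θ).toRingHom.comp (mapRingHom (algebraMap F k))
  have c0 : ∀ a, (ψ a).coeff 0 = AdjoinRoot.mk v a := fun a => by
    refine .trans ?_ (AdjoinRoot.aeval_eq a)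
    simp [ψ, taylor_coeff_zero, eval_map, θ, aeval_def, -AdjoinRoot.aeval_eq]
    rfl
  have c1 : ∀ j, ψ (X ^ Fintype.card F ^ j - X) = br p e θ j := fun j => by
    simp [ψ, br, T, hq, add_comm]
  have h1 : ∀ i, ψ (-Dv v (i + 1 + v.natDegree)) * br p e θ (i + 1) =
      br p e θ (i + 1 + v.natDegree) * ψ (-Dv v (i + v.natDegree)) ^ p ^ e := fun i => by
    rw [← c1, ← c1, ← map_mul, neg_mul, Dv_succ hm, map_neg ψ (Dv _ _), neg_pow,
      neg_one_pow_char_pow, ← hq]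
    simp
  have h0 : (ψ (-Dv v (0 + v.natDegree))).coeff 0 = 1 := by
    rw [c0, zero_add, map_neg, wilson hm, neg_neg]
  refine ⟨fun i => back (ψ := ψ) (fun a => by rw [c0, AdjoinRoot.mk_eq_zero]) ?_ _ _ ?_,
    fun n hn g => transfer (θ := θ) (ψ := ψ) he.ne' hv.natDegree_pos.ne' hk ((taylor_injective θ).comp
      (map_injective _ (algebraMap F k).injective)) (by rw [c0, AdjoinRoot.mk_self])
      (fun j => neg_ne_zero.mpr (Dv_ne v j)) h1 h0
      fun i => by rw [← hq, ← Nat.card_eq_fintype_card]; exact hn _⟩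
  · have := (PerfectField.separable_of_irreducible hv).aeval_derivative_ne_zero (x := θ)
      ((AdjoinRoot.aeval_eq v).trans AdjoinRoot.mk_self)
    simpa [ψ, taylor_coeff_one, eval_map, aeval_def]
  have := (v_one (v := fun i => ψ (-Dv v (i + v.natDegree))) he.ne' hk h1 h0 i).1
  rw [pow_succ', mul_dvd_mul_iff_left PowerSeries.X_ne_zero, PowerSeries.X_pow_dvd_iff] at this
  rw [X_pow_dvd_iff, map_sub, map_one]
  simpa only [← Polynomial.coe_one, ← Polynomial.coe_sub, coeff_coe] using this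

end Pool.Agent.H46.Yao
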