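import Pool.Agent.H46.Yao.Cart

set_option autoImplicit false
set_option linter.unusedSectionVars false

namespace Pool.Agent.H46.Yao

open Polynomial
open scoped PowerSeries

variable {k : Type} [Field k] [Fintype k] {p e d : ℕ} [Fact p.Prime] [CharP k p] {θ : k}

/-- `w c = c - u` -/
noncomputable def w (c : k) : k[X] := C c - X

lemma deg_w (c : k) : (w c).natDegree = 1 := by rw [w, ← natDegree_neg, neg_sub, natDegree_X_sub_C]

lemma U_small {P : k[X]} (h0 : P.coeff 0 = 0) (h : P.natDegree ≤ Fintype.card k) :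
    U (P : k⟦X⟧) = (C (P.coeff (Fintype.card k)) * X : k[X]) := by
  rw [U_coe]
  congr 1
  ext n
  rw [coeff_contract Fintype.card_ne_zero]
  rcases n with _ | _ | n
  · simpa
  · simp
  · rw [coeff_eq_zero_of_natDegree_lt (h.trans_lt (by nlinarith [Fintype.card_pos (α := k)]))]
    simp

lemma U_pow (c : k) (z : k⟦X⟧) (m : ℕ) : ∀ P : k[X], P.coeff 0 = 0 →
    P.natDegree + m ≤ Fintype.card k → U ((P : k⟦X⟧) * ((w c : k⟦X⟧) + z ^ Fintype.card k) ^ m) =
      (C ((P * w c ^ m).coeff (Fintype.card k)) * X : k[X]) := by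
  induction m with
  | zero => intro P a b; simpa using U_small a b
  | succ m ih =>
    intro P a b
    have := ih (P * w c) (by simp [a]) (by
      have := natDegree_mul_le (p := P) (q := w c); rw [deg_w] at this; omega)
    rw [pow_succ', add_mul, mul_add, map_add, ← mul_assoc, ← coe_mul, this, mul_left_comm, U_mul,
      ih P a (by omega), coeff_eq_zero_of_natDegree_lt (p := P * w c ^ m) (natDegree_mul_le.trans_lt
        (by rw [natDegree_pow, deg_w]; omega)), pow_succ', mul_assoc]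
    simp

variable (p e θ) in
/-- `t ^ q ^ j` with `t = θ + u` -/
noncomputable def T (j : ℕ) : k[X] := (C θ + X) ^ (p ^ e) ^ j

variable (p e θ) in
/-- `[j] = t ^ q ^ j - t` -/
noncomputable def br (j : ℕ) : k[X] := T p e θ j - T p e θ 0

lemma T_eq (j : ℕ) : T p e θ j = C (θ ^ (p ^ e) ^ j) + X ^ (p ^ e) ^ j := by
  rw [T, ← pow_mul, add_pow_char_pow, map_pow]

lemma br_eq (j : ℕ) : br p e θ j = w (θ ^ (p ^ e) ^ j - θ) + X ^ (p ^ e) ^ j := by
  rw [br, T_eq, T_eq, w]; simp; ring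

lemma T_pow (i j : ℕ) : T p e θ i ^ (p ^ e) ^ j = T p e θ (i + j) := by rw [T, T, ← pow_mul, ← pow_add]

lemma br_pow (i j : ℕ) : br p e θ i ^ (p ^ e) ^ j = T p e θ (i + j) - T p e θ j := by
  rw [br, ← pow_mul, sub_pow_char_pow, pow_mul, T_pow, T_pow, zero_add]

variable (he : e ≠ 0)
include he

lemma q2 : 2 ≤ p ^ e := Nat.one_lt_pow he (Fact.out : p.Prime).one_lt

lemma ex_H {j : ℕ} (c : j ≠ 0) : ∃ h : k⟦X⟧, h * (br p e θ j : k⟦X⟧) = PowerSeries.X := by
  obtain ⟨a, ha⟩ : ∃ a, (p ^ e) ^ j = a + 2 := Nat.exists_eq_add_of_le' (Nat.one_lt_pow c (q2 he))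
  rw [br_eq, w]
  by_cases g : θ ^ (p ^ e) ^ j - θ = 0
  · refine ⟨(PowerSeries.X ^ (a + 1) - 1)⁻¹, ?_⟩
    have := PowerSeries.inv_mul_cancel (PowerSeries.X ^ (a + 1) - 1 : k⟦X⟧) (by simp)
    rw [g]
    simp only [ha, coe_add, coe_sub, coe_pow, coe_X, map_zero, coe_zero]
    linear_combination PowerSeries.X * this
  · exact ⟨PowerSeries.X * _⁻¹, by
      rw [mul_assoc, PowerSeries.inv_mul_cancel _ (by simpa [ha] using g), mul_one]⟩

omit he in
variable (p e θ) in
/-- `u / [j]` -/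
noncomputable def H (j : ℕ) : k⟦X⟧ :=
  Classical.epsilon fun h => h * (br p e θ j : k⟦X⟧) = PowerSeries.X

lemma H_mul {j : ℕ} (h : j ≠ 0) : H p e θ j * (br p e θ j : k⟦X⟧) = PowerSeries.X :=
  Classical.epsilon_spec (ex_H he h)

lemma br_ne {j : ℕ} (h : j ≠ 0) : (br p e θ j : k⟦X⟧) ≠ 0 := fun c =>
  PowerSeries.X_ne_zero (by rw [← H_mul (p := p) (θ := θ) he h, c, mul_zero])

variable (hd : d ≠ 0) (hk : Fintype.card k = (p ^ e) ^ d)
include hd hk

omit he hd in
lemma U_br {j m : ℕ} (h : d ≤ j) (hm : m + 1 ≤ Fintype.card k) :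
    U (PowerSeries.X * (br p e θ j : k⟦X⟧) ^ m) =
      (C ((X * w (θ ^ (p ^ e) ^ j - θ) ^ m).coeff (Fintype.card k)) * X : k[X]) := by
  rw [← U_pow _ (PowerSeries.X ^ (p ^ e) ^ (j - d)) m X (by simp) (by simpa [add_comm]), br_eq,
    ← pow_mul PowerSeries.X, hk, ← pow_add, Nat.sub_add_cancel h]
  simp

lemma U_H {j : ℕ} (h : d ≤ j) : U (H p e θ j) = H p e θ j := by
  obtain ⟨Q, hQ⟩ : ∃ Q, Fintype.card k = Q + 1 := Nat.exists_eq_add_of_le' Fintype.card_pos
  have j0 : j ≠ 0 := by omega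
  refine mul_left_cancel₀ (br_ne (p := p) (θ := θ) he j0) ?_
  rw [← U_mul, hQ, pow_succ, mul_assoc, mul_comm _ (H _ _ _ _), H_mul he j0, mul_comm,
    U_br hk h hQ.ge, hQ, coeff_X_mul, w, ← neg_sub, neg_pow, ← C_1, ← C_neg, ← C_pow,
    show (-1 : k) ^ Q = 1 by simpa [hQ] using FiniteField.pow_card_sub_one_eq_one (-1 : k) (by simp)]
  have := ((monic_X_sub_C (θ ^ (p ^ e) ^ j - θ)).pow Q).coeff_natDegree
  rw [natDegree_pow, natDegree_X_sub_C, mul_one] at this
  rw [C_1, one_mul, this]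
  simp

lemma orbit {j : ℕ} (h : d ≤ j) (m : ℕ) : ∀ a < j, j ∣ a + m * d →
    (U ^ m) ((T p e θ 0 : k⟦X⟧) * H p e θ j) = (T p e θ a : k⟦X⟧) * H p e θ j := by
  induction m with
  | zero => intro a b c; simp [Nat.eq_zero_of_dvd_of_lt (by simpa using c) b]
  | succ m ih =>
    intro a b c
    have t : U ((T p e θ (a + d) : k⟦X⟧) * H p e θ j) = (T p e θ a : k⟦X⟧) * H p e θ j := by
      rw [← T_pow, ← hk, coe_pow, U_mul, U_H he hd hk h]
    rw [pow_succ', Module.End.mul_apply]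
    by_cases g : a + d < j
    · rw [ih _ g (by convert c using 1; ring), t]
    obtain ⟨b, hb⟩ := Nat.exists_eq_add_of_le (not_lt.mp g)
    obtain ⟨r, hr⟩ : ∃ r, (p ^ e) ^ b = r + 1 := Nat.exists_eq_add_of_le' (Nat.one_le_pow _ _ (by
      have := q2 (p := p) he; omega))
    have l : r + 1 < Fintype.card k := by rw [hk, ← hr]; exact Nat.pow_lt_pow_right (q2 he) (by omega)
    have := U_br (θ := θ) hk h l.le
    rw [coeff_eq_zero_of_natDegree_lt (natDegree_mul_le.trans_lt (by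
      rw [natDegree_pow, deg_w, natDegree_X]; omega)), ← H_mul (p := p) (θ := θ) he (j := j) (by omega),
      mul_assoc, ← pow_succ', ← hr, ← coe_pow, br_pow, ← hb, coe_sub, mul_comm, sub_mul, map_sub, t,
      map_zero, zero_mul, coe_zero, sub_eq_zero] at this
    rw [ih b (by omega) ((Nat.dvd_add_right (dvd_refl j)).mp (by convert c using 1; nlinarith)), this]

omit he hd hk in
variable (k) in
/-- the approximation space -/
noncomputable def Good (Y Z : ℕ) : Submodule k k⟦X⟧ where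
  carrier := {h | ∃ a b : k[X], a.natDegree ≤ Y + Fintype.card k ∧ b.natDegree < Fintype.card k ∧
    PowerSeries.X ^ (2 * Z) ∣ ((X ^ Fintype.card k - X : k[X]) : k⟦X⟧) * h -
      ((X * (a + X ^ Z * b) : k[X]) : k⟦X⟧)}
  zero_mem' := ⟨0, 0, by simp, by simpa using Fintype.card_pos, by simp⟩
  add_mem' := fun ⟨a, b, c, d, e⟩ ⟨a', b', c', d', e'⟩ => ⟨a + a', b + b',
    natDegree_add_le_of_le c c' |>.trans (max_self _).le,
    (natDegree_add_le _ _).trans_lt (max_lt d d'), by convert e.add e' using 1; push_cast; ring⟩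
  smul_mem' := fun r _ ⟨a, b, c, d, e⟩ => ⟨C r * a, C r * b, (natDegree_C_mul_le _ _).trans c,
    (natDegree_C_mul_le _ _).trans_lt d, by
      convert e.mul_left (PowerSeries.C r) using 1; push_cast; rw [PowerSeries.smul_eq_C_mul]; ring⟩

omit hd hk in
lemma good {i j : ℕ} (h : i + 1 < j) (a : ℕ) :
    (T p e θ a : k⟦X⟧) * H p e θ j ∈ Good k ((p ^ e) ^ i) ((p ^ e) ^ (i + 1)) := by
  have q := q2 (p := p) he
  have l : ∀ j, i + 1 < j → (PowerSeries.X : k⟦X⟧) ^ (2 * (p ^ e) ^ (i + 1)) ∣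
      PowerSeries.X ^ (p ^ e) ^ j := fun j h => pow_dvd_pow _ ((Nat.mul_le_mul_right _ q).trans
    (by rw [← pow_succ']; exact Nat.pow_le_pow_right (by omega) h))
  set c := θ ^ (p ^ e) ^ j - θ
  obtain ⟨W, hW⟩ : w c ∣ X ^ Fintype.card k - X := by
    rw [w, ← neg_sub, neg_dvd, dvd_iff_isRoot]; simp [FiniteField.pow_card]
  have dW : W.natDegree < Fintype.card k := by
    have := FiniteField.X_pow_card_sub_X_ne_zero k (Fintype.one_lt_card (α := k))
    rw [← FiniteField.X_pow_card_sub_X_natDegree_eq k (Fintype.one_lt_card (α := k)), hW,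
      natDegree_mul (left_ne_zero_of_mul (hW ▸ this)) (right_ne_zero_of_mul (hW ▸ this)), deg_w]
    omega
  have key : ∀ u v : k[X], PowerSeries.X ^ (2 * (p ^ e) ^ (i + 1)) ∣
      ((W * T p e θ a - (u + X ^ (p ^ e) ^ (i + 1) * v) : k[X]) : k⟦X⟧) →
      PowerSeries.X ^ (2 * (p ^ e) ^ (i + 1)) ∣ ((X ^ Fintype.card k - X : k[X]) : k⟦X⟧) *
        ((T p e θ a : k⟦X⟧) * H p e θ j) - ((X * (u + X ^ (p ^ e) ^ (i + 1) * v) : k[X]) : k⟦X⟧) :=
      fun u v g => by
    have := H_mul (p := p) (θ := θ) he (j := j) (by omega)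
    rw [br_eq] at this
    convert (g.mul_left PowerSeries.X).sub ((l j h).mul_left ((W : k⟦X⟧) * (T p e θ a : k⟦X⟧) * H p e θ j))
      using 1
    rw [hW]; push_cast at this ⊢
    linear_combination (W : k⟦X⟧) * (T p e θ a : k⟦X⟧) * this
  have d1 := (natDegree_mul_C_le W (θ ^ (p ^ e) ^ a)).trans dW.le
  rcases lt_trichotomy a (i + 1) with g | rfl | g
  · refine ⟨W * T p e θ a, 0, natDegree_mul_le.trans ?_, by simpa using Fintype.card_pos,
      key _ _ (by simp)⟩
    rw [T, natDegree_pow, add_comm (C θ), natDegree_X_add_C, mul_one]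
    have := Nat.pow_le_pow_right (show 0 < p ^ e by omega) (Nat.le_of_lt_succ g)
    omega
  · exact ⟨_, W, d1.trans (Nat.le_add_left _ _), dW, key _ _ (by
      rw [T_eq, mul_add, mul_comm W (X ^ _)]; simp)⟩
  · exact ⟨_, 0, d1.trans (Nat.le_add_left _ _), by simpa using Fintype.card_pos, key _ _ (by
      rw [T_eq, mul_add]; simpa using (l a g).mul_left _)⟩

omit hd hk in
lemma bad {i a b : ℕ} (hi : Fintype.card k + 2 < (p ^ e) ^ i) (ha : a ≤ i) (hb : b < a) :
    ((T p e θ a : k⟦X⟧) - (T p e θ b : k⟦X⟧)) * H p e θ (i + 1) ∉ Good k ((p ^ e) ^ i) ((p ^ e) ^ (i + 1)) := by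
  rintro ⟨u, v, h1, h2, h3⟩
  have q := q2 (p := p) he
  have := H_mul (p := p) (θ := θ) he i.succ_ne_zero
  rw [br_eq] at this
  set c := θ ^ (p ^ e) ^ (i + 1) - θ
  set B := T p e θ a - T p e θ b with hB
  have z : 2 * (p ^ e) ^ i ≤ (p ^ e) ^ (i + 1) := by rw [pow_succ']; gcongr
  have dT : ∀ a, (T p e θ a).natDegree = (p ^ e) ^ a := fun a => by
    rw [T, natDegree_pow, add_comm (C θ), natDegree_X_add_C, mul_one]
  have l := Nat.pow_lt_pow_right q hb
  have l1 := Nat.pow_le_pow_right (show 0 < p ^ e by omega) ha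
  have l2 := Nat.one_le_pow b _ (show 0 < p ^ e by omega)
  have dB : B.natDegree = (p ^ e) ^ a := by rw [hB, natDegree_sub_eq_left_of_natDegree_lt, dT]; rwa [dT, dT]
  have dW := FiniteField.X_pow_card_sub_X_natDegree_eq k (Fintype.one_lt_card (α := k))
  have d0 : ((X ^ Fintype.card k - X) * B).natDegree = Fintype.card k + (p ^ e) ^ a := by
    rw [natDegree_mul (FiniteField.X_pow_card_sub_X_ne_zero k Fintype.one_lt_card)
      (by rintro e; simp [e] at dB; omega), dW, dB]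
  generalize (p ^ e) ^ (i + 1) = Z at *
  obtain ⟨N, hN⟩ : ∃ N, 2 * Z = N + 1 := ⟨2 * Z - 1, by omega⟩
  have d1 : ((X ^ Fintype.card k - X) * B - w c * u).natDegree < Z :=
    (natDegree_sub_le _ _).trans_lt (max_lt (by omega)
      (natDegree_mul_le.trans_lt (by rw [deg_w]; omega)))
  have d2 : (u + w c * v).natDegree + Z < N := by
    have := (natDegree_add_le u (w c * v)).trans
      (max_le h1 (natDegree_mul_le.trans (by rw [deg_w]; omega)))
    omega
  have g : PowerSeries.X ^ N ∣ (((X ^ Fintype.card k - X) * B - w c * u -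
      X ^ Z * (u + w c * v) : k[X]) : k⟦X⟧) := by
    rw [← mul_dvd_mul_iff_left PowerSeries.X_ne_zero, ← pow_succ', ← hN]
    convert (h3.mul_left ((w c + X ^ Z : k[X]) : k⟦X⟧)).add
      (dvd_mul_right _ (PowerSeries.X * (v : k⟦X⟧))) using 1
    rw [hB]; push_cast at this ⊢
    linear_combination (PowerSeries.X - PowerSeries.X ^ Fintype.card k) *
      ((T p e θ a : k⟦X⟧) - (T p e θ b : k⟦X⟧)) * this
  have g1 : (X ^ Fintype.card k - X) * B - w c * u = X ^ Z * (u + w c * v) := by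
    refine sub_eq_zero.mp (ext fun n => ?_)
    by_cases g2 : n < N
    · rw [← coeff_coe]; exact PowerSeries.X_pow_dvd_iff.mp g n g2
    refine coeff_eq_zero_of_natDegree_lt ((natDegree_sub_le _ _).trans_lt (max_lt (by omega)
      (natDegree_mul_le.trans_lt (by rw [natDegree_X_pow]; omega))))
  have g2 : u + w c * v = 0 := by_contra fun g2 => by
    rw [g1, natDegree_X_pow_mul _ g2] at d1; omega
  rw [g2, mul_zero, sub_eq_zero, eq_neg_of_add_eq_zero_left g2] at g1
  have := (congrArg natDegree g1).trans_le natDegree_mul_le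
  have := natDegree_mul_le (p := w c) (q := v)
  rw [d0, natDegree_neg, deg_w] at *
  omega

end Pool.Agent.H46.Yao
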